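import Pool.Agent.H91.HMS.RLib

/-! # HMS box 2: the constants are primitive recursive -/

set_option autoImplicit false

namespace Pool.HMS

namespace H62

theorem primrec_natpow : Primrec₂ (fun a b : ℕ => a ^ b) :=
  Primrec₂.unpaired'.1 Nat.Primrec.pow

end H62

open H62

theorem rcmp_thm : S_RCMP := by
  have hs : Primrec (fun D : ℕ => D + 1) := Primrec.succ
  have hid : Primrec (fun D : ℕ => D) := Primrec.id
  have hc : ∀ c : ℕ, Primrec (fun _ : ℕ => c) := fun c => Primrec.const c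
  have hadd : ∀ {f g : ℕ → ℕ}, Primrec f → Primrec g → Primrec (fun D => f D + g D) :=
    fun hf hg => Primrec.nat_add.comp hf hg
  have hmul : ∀ {f g : ℕ → ℕ}, Primrec f → Primrec g → Primrec (fun D => f D * g D) :=
    fun hf hg => Primrec.nat_mul.comp hf hg
  have hpow : ∀ {f g : ℕ → ℕ}, Primrec f → Primrec g → Primrec (fun D => f D ^ g D) :=
    fun hf hg => primrec_natpow.comp hf hg
  have h8 : Primrec (fun D : ℕ => 1000 * (D + 1) ^ 8) := hmul (hc _) (hpow hs (hc _))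
  have h4 : Primrec (fun D : ℕ => 4 * D + 4) := hadd (hmul (hc _) hid) (hc _)
  have h3 : Primrec (fun D : ℕ => D ^ 3) := hpow hid (hc _)
  have hw : Primrec (fun D : ℕ => 5 * 2 ^ D * D ^ 3 * (8 * D ^ 3 + 1) * (D + 1)) :=
    hmul (hmul (hmul (hmul (hc _) (hpow (hc _) hid)) h3) (hadd (hmul (hc _) h3) (hc _))) hs
  refine ⟨⟨crD, hadd (hmul h8 h4) h8, fun _ => le_rfl⟩, ⟨fun D => 2 * wdh D + 1, ?_, fun _ => le_rfl⟩⟩
  exact hadd (hmul (hc _) hw) (hc _)

end Pool.HMS
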