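import Pool.Agent.H91.HMS.RLib

/-! # HMS box 2: in the thick case the normalised determinant is at most one -/

set_option autoImplicit false

namespace Pool.HMS

open TMLib Finset

namespace H62

theorem rdetb_h0 {D : ℕ} (hD : 1 ≤ D) : 0 ≤ 2 ^ (D - 1) * h0 D ∧ 2 ^ (D - 1) * h0 D ≤ 1 := by
  have h1 : (1 : ℚ) ≤ D := by exact_mod_cast hD
  have h1' : (0 : ℚ) < D := by linarith
  have hρ := rhoD_pos D
  have hρ1 : rhoD D ≤ 1 := by
    unfold rhoD RD
    rw [div_le_one (by positivity)]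
    have h3 : (0 : ℚ) ≤ D ^ 3 := by positivity
    nlinarith
  have h2 : (2 : ℚ) ^ (D - 1) ≠ 0 := by positivity
  have heq : 2 ^ (D - 1) * h0 D = (rhoD D / D ^ 2) ^ 2 / D := by
    unfold h0
    field_simp
  rw [heq]
  constructor
  · positivity
  · have hq : rhoD D / D ^ 2 ≤ 1 := by
      rw [div_le_one (by positivity)]
      nlinarith
    have hq0 : 0 ≤ rhoD D / (D : ℚ) ^ 2 := by positivity
    rw [div_le_one h1']
    nlinarith

end H62

open H62

theorem rdetb_thm : S_RDETB := by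
  intro D K st X U W hD h hL
  have hS := h.pos
  set M : Matrix (Fin D) (Fin D) ℚ := Matrix.of fun c k : Fin D => ent st.2.1 (k + 1) (c + 1)
    with hM
  have hdet := hL.det_spec rfl
  have hmul : (Matrix.of fun c c' : Fin D =>
      ∑ k ∈ range D, ent (rMat D st) c k * ent (rMat D st) c' k) = M * M.transpose := by
    ext c c'
    rw [Matrix.mul_apply, Matrix.of_apply, Finset.sum_range]
    refine Finset.sum_congr rfl fun k _ => ?_
    unfold rMat
    rw [ent_tabM, ent_tabM, if_pos ⟨c.2, k.2⟩, if_pos ⟨c'.2, k.2⟩, Matrix.transpose_apply, hM,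
      Matrix.of_apply, Matrix.of_apply]
  rw [hmul, Matrix.det_mul, Matrix.det_transpose] at hdet
  have hr : rdet D st = M.det / st.2.2 ^ D := rfl
  rw [hr, div_pow, div_le_one (by positivity)]
  obtain ⟨hb0, hb1⟩ := rdetb_h0 hD
  calc M.det ^ 2 = M.det * M.det := by ring
    _ ≤ (2 ^ (D - 1) * (st.2.2 ^ 2 * h0 D)) ^ D := hdet
    _ = (2 ^ (D - 1) * h0 D) ^ D * (st.2.2 ^ D) ^ 2 := by
        rw [← pow_mul, mul_comm D 2, pow_mul, ← mul_pow]; congr 1; ring
    _ ≤ 1 * (st.2.2 ^ D) ^ 2 := by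
        gcongr
        exact pow_le_one₀ hb0 hb1
    _ = (st.2.2 ^ D) ^ 2 := one_mul _

end Pool.HMS
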