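import Pool.Agent.H91.HMS.RLib

/-! # HMS box 2: the matrix given to the lattice reduction is admissible -/

set_option autoImplicit false

namespace Pool.HMS

open TMLib Finset

namespace H62

theorem h0_pos {D : ℕ} (hD : 1 ≤ D) : 0 < h0 D := by
  unfold h0
  have h1 : (0 : ℚ) < D := by exact_mod_cast hD
  have h2 := rhoD_pos D
  positivity

/-- vanishing linear parts of the functionals `1, …, D` force the zero vector -/
theorem rinv_inj {D : ℕ} {K : Set (ℕ → ℚ)} {st : RS} (h : RInv D K st) {x : ℕ → ℚ}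
    (hx : Supp D x) (hz : ∀ k < D, lin D (fun i => ent st.2.1 (k + 1) (i + 1)) x = 0) :
    ∀ c, x c = 0 := by
  have h0 : Supp D (fun _ => (0 : ℚ)) := fun _ _ => rfl
  have hlin : ∀ s : ℕ → ℚ, aff D s x - aff D s (fun _ => (0 : ℚ)) =
      lin D (fun i => s (i + 1)) x := by
    intro s
    rw [aff_sub]
    simp
  have hone : ∑ j ∈ range (D + 1), (aff D (ent st.2.1 j) x -
      aff D (ent st.2.1 j) (fun _ => (0 : ℚ))) = 0 := by
    rw [Finset.sum_sub_distrib, h.one, h.one, sub_self]
  have hall : ∀ j ∈ range (D + 1), aff D (ent st.2.1 j) x -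
      aff D (ent st.2.1 j) (fun _ => (0 : ℚ)) = 0 := by
    have hpos : ∀ k < D, aff D (ent st.2.1 (k + 1)) x -
        aff D (ent st.2.1 (k + 1)) (fun _ => (0 : ℚ)) = 0 := fun k hk => by
      rw [hlin]; exact hz k hk
    have hz0 : aff D (ent st.2.1 0) x - aff D (ent st.2.1 0) (fun _ => (0 : ℚ)) = 0 := by
      rw [Finset.sum_range_succ'] at hone
      rw [Finset.sum_eq_zero (fun k hk => hpos k (Finset.mem_range.1 hk)), zero_add] at hone
      exact hone
    intro j hj
    rcases j with _ | k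
    · exact hz0
    · exact hpos k (by have := Finset.mem_range.1 hj; omega)
  intro c
  by_cases hc : c < D
  · have h1 := h.rep x hx c hc
    have h2 := h.rep _ h0 c hc
    have h3 : ∑ j ∈ range (D + 1), (aff D (ent st.2.1 j) x -
      aff D (ent st.2.1 j) (fun _ => (0 : ℚ))) * ent st.1 j c = st.2.2 * x c := by
      simp_rw [sub_mul]
      rw [Finset.sum_sub_distrib, h1, h2]
      ring
    rw [Finset.sum_eq_zero (fun j hj => by rw [hall j hj, zero_mul])] at h3
    have := h.pos
    rcases mul_eq_zero.1 h3.symm with h4 | h4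
    · exact absurd h4 this.ne'
    · exact h4
  · exact hx c (not_lt.1 hc)

theorem ent_rMat {D : ℕ} (st : RS) {c k : ℕ} (hc : c < D) (hk : k < D) :
    ent (rMat D st) c k = ent st.2.1 (k + 1) (c + 1) := by
  unfold rMat
  rw [ent_tabM, if_pos ⟨hc, hk⟩]

theorem sum_rMat {D : ℕ} (st : RS) (x : ℕ → ℚ) {k : ℕ} (hk : k < D) :
    ∑ c ∈ range D, x c * ent (rMat D st) c k = lin D (fun i => ent st.2.1 (k + 1) (i + 1)) x := by
  unfold lin
  refine Finset.sum_congr rfl fun c hc => ?_
  rw [ent_rMat st (Finset.mem_range.1 hc) hk, mul_comm]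

end H62

open H62

theorem rlat_thm : S_RLAT := by
  intro D K st hD h
  refine ⟨?_, ?_, ?_⟩
  · intro i j
    unfold rMat
    rw [ent_tabM]
    split_ifs
    · exact h.intG _ _
    · exact IsI.zero
  · exact mul_pos (pow_pos h.pos 2) (h0_pos hD)
  · intro x hx hk
    exact rinv_inj h hx fun k hkD => by rw [← sum_rMat st x hkD]; exact hk k hkD

end Pool.HMS
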