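import Pool.Agent.H91.HMS.RLib
import Pool.Agent.H48.HMS.Stm

/-! # HMS box 2: number of steps and initial state are polynomial time -/

set_option autoImplicit false

namespace Pool.HMS

open TMLib

namespace H62

variable {α : Type} [Enc α]

theorem padd (h : QOps) {f g : α → ℚ} (hf : PTime f) (hg : PTime g) :
    PTime (fun x => f x + g x) := PTime.comp2 (g := fun a b : ℚ => a + b) h.add hf hg

theorem pmul (h : QOps) {f g : α → ℚ} (hf : PTime f) (hg : PTime g) :
    PTime (fun x => f x * g x) := PTime.comp2 (g := fun a b : ℚ => a * b) h.mul hf hg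

theorem pneg (h : QOps) {f : α → ℚ} (hf : PTime f) :
    PTime (fun x => -f x) := PTime.comp (g := fun a : ℚ => -a) h.neg hf

theorem psub (h : QOps) {f g : α → ℚ} (hf : PTime f) (hg : PTime g) :
    PTime (fun x => f x - g x) :=
  (padd h hf (pneg h hg)).congr fun _ => sub_eq_add_neg _ _

theorem pnat (h : QOps) {f : α → ℕ} (hf : PTime f) :
    PTime (fun x => (f x : ℚ)) :=
  (h.cast.comp (ptime_ofNat hf)).congr fun x => by simp

theorem ptime_tab {m : α → ℕ} {f : α → ℕ → ℚ} (hm : PTime m)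
    (hf : PTime fun p : α × ℕ => f p.1 p.2) : PTime (fun x => tab (m x) (f x)) :=
  PTime.map (PTime.range hm) hf

theorem ptime_tabM {n m : α → ℕ} {f : α → ℕ → ℕ → ℚ} (hn : PTime n) (hm : PTime m)
    (hf : PTime fun p : (α × ℕ) × ℕ => f p.1.1 p.1.2 p.2) :
    PTime (fun x => tabM (n x) (m x) (f x)) :=
  PTime.map (g := fun x i => tab (m x) (f x i)) (PTime.range hn)
    (ptime_tab (m := fun p : α × ℕ => m p.1) (f := fun p : α × ℕ => f p.1 p.2)
      (hm.comp (PTime.fst PTime.id)) hf)

end H62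

open H62

theorem rpt2_thm (h : S_QOP) : S_RPT2 := by
  have hD : PTime (fun p : ℕ × ℚ => p.1) := PTime.fst PTime.id
  have hB : PTime (fun p : ℕ × ℚ => p.2) := PTime.snd PTime.id
  constructor
  · have h1 : PTime (fun p : ℕ × ℚ => p.2.num.natAbs.bits.length) :=
      PTime.length (ptime_absbits (ptime_qnum hB))
    have h2 : PTime (fun p : ℕ × ℚ => 16 * p.1 ^ 3 * (p.1 + p.2.num.natAbs.bits.length)) :=
      PTime.mul (PTime.mul (PTime.const 16) (PTime.pow hD 3)) (PTime.add hD h1)
    exact h2.congr fun p => by rw [Nat.size_eq_bits_len]; rfl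
  · have e3 : PTime (fun p : ℕ × ℚ => 2 * (p.1 : ℚ) * p.2) :=
      pmul h (pmul h (PTime.const 2) (pnat h hD)) hB
    have e1 : PTime (fun p : ℕ × ℚ => tabM (p.1 + 1) p.1 fun j i =>
        if j = i + 1 then 2 * (p.1 : ℚ) * p.2 - p.2 else -p.2) := by
      refine ptime_tabM (PTime.succ hD) hD ?_
      refine PTime.ite ?_ ?_ ?_
      · exact PTime.natEq (PTime.snd (PTime.fst PTime.id)) (PTime.succ (PTime.snd PTime.id))
      · exact psub h (e3.comp (PTime.fst (PTime.fst PTime.id)))
          (hB.comp (PTime.fst (PTime.fst PTime.id)))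
      · exact pneg h (hB.comp (PTime.fst (PTime.fst PTime.id)))
    have e2 : PTime (fun p : ℕ × ℚ => tabM (p.1 + 1) (p.1 + 1) fun j i =>
        if j = 0 then (if i = 0 then (p.1 : ℚ) * p.2 else -1)
        else (if i = 0 then p.2 else if i = j then 1 else 0)) := by
      have hj : PTime (fun p : ((ℕ × ℚ) × ℕ) × ℕ => p.1.2) := PTime.snd (PTime.fst PTime.id)
      have hi : PTime (fun p : ((ℕ × ℚ) × ℕ) × ℕ => p.2) := PTime.snd PTime.id
      have hp : PTime (fun p : ((ℕ × ℚ) × ℕ) × ℕ => p.1.1) := PTime.fst (PTime.fst PTime.id)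
      refine ptime_tabM (PTime.succ hD) (PTime.succ hD) ?_
      refine PTime.ite (PTime.natEq hj (PTime.const 0)) (PTime.ite (PTime.natEq hi (PTime.const 0))
        ?_ (PTime.const _)) (PTime.ite (PTime.natEq hi (PTime.const 0)) (hB.comp hp)
        (PTime.ite (PTime.natEq hi hj) (PTime.const 1) (PTime.const 0)))
      exact pmul h (pnat h (hD.comp hp)) (hB.comp hp)
    exact PTime.pair e1 (PTime.pair e2 e3)

end Pool.HMS
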