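import Pool.Agent.H91.HMS.RLib
import Pool.Agent.H48.HMS.Bin

/-! # HMS box 2: sizes of states of the cut loop -/

set_option autoImplicit false

namespace Pool.HMS

open TMLib Finset

namespace H62

theorem qb_le_of_den {x : ℚ} {d P M : ℕ} (hd : 0 < d) (hdP : d ≤ P) (hi : IsI (d * x))
    (hb : |x| ≤ M) : qb x ≤ P.size + M.size := by
  obtain ⟨z, hz⟩ := hi
  have hd' : (d : ℚ) ≠ 0 := by exact_mod_cast hd.ne'
  have hx : x = Rat.divInt z d := by
    rw [Rat.divInt_eq_div, Int.cast_natCast, ← hz]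
    field_simp
  have hden : x.den ∣ d := by
    have := Rat.den_dvd z d
    rw [← hx] at this
    exact_mod_cast this
  have hden2 : x.den ≤ P := (Nat.le_of_dvd hd hden).trans hdP
  have hnum : x.num.natAbs ≤ M * P := by
    have h1 : ((x.num.natAbs : ℕ) : ℚ) = |x| * x.den := by
      rw [Nat.cast_natAbs, Int.cast_abs]
      have h2 : (x.num : ℚ) = x * x.den := (Rat.mul_den_eq_num x).symm
      rw [h2, abs_mul, Nat.abs_cast]
    have h3 : ((x.num.natAbs : ℕ) : ℚ) ≤ ((M * P : ℕ) : ℚ) := by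
      rw [h1]
      push_cast
      have h4 : (x.den : ℚ) ≤ P := by exact_mod_cast hden2
      have h5 : (0 : ℚ) ≤ x.den := by positivity
      have h6 : (0 : ℚ) ≤ M := by positivity
      exact mul_le_mul hb h4 h5 h6
    exact_mod_cast h3
  have hM := Nat.lt_size_self M
  have hP := Nat.lt_size_self P
  unfold qb
  refine max_le ?_ ?_
  · rw [Nat.size_le]
    refine lt_of_le_of_lt hnum ?_
    rw [pow_add, mul_comm]
    exact Nat.mul_lt_mul'' hP hM
  · exact (Nat.size_le_size hden2).trans (Nat.le_add_right _ _)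

theorem sz_le_of_den {x : ℚ} {d P M : ℕ} (hd : 0 < d) (hdP : d ≤ P) (hi : IsI (d * x))
    (hb : |x| ≤ M) : sz x ≤ 7 + 8 * (P.size + M.size) := by
  have h1 := sz_rat_le x
  have h2 := qb_le_of_den hd hdP hi hb
  omega

theorem mem_mat_ent {m : Mat} {r : Vec} {x : ℚ} (hr : r ∈ m) (hx : x ∈ r) :
    ∃ i j, ent m i j = x := by
  obtain ⟨i, hi, rfl⟩ := List.getElem_of_mem hr
  obtain ⟨j, hj, rfl⟩ := List.getElem_of_mem hx
  refine ⟨i, j, ?_⟩
  unfold ent fn
  rw [List.getD_eq_getElem _ _ hi, List.getD_eq_getElem _ _ hj]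

theorem sz_mat_le (m : Mat) (a b K : ℕ) (ha : m.length ≤ a) (hb : ∀ r ∈ m, r.length ≤ b)
    (hK : ∀ i j, sz (ent m i j) ≤ K) : sz m ≤ 1 + a * (1 + (1 + b * (1 + K))) := by
  refine sz_list_le m a _ ha fun r hr => sz_list_le r b K (hb r hr) fun x hx => ?_
  obtain ⟨i, j, rfl⟩ := mem_mat_ent hr hx
  exact hK i j

end H62

open H62

theorem rszb_thm : S_RSZB := by
  refine ⟨3 + (1 + (Polynomial.X + 1) * (1 + (1 + Polynomial.X * (1 + (7 + 8 * Polynomial.X))))) +
    (1 + (Polynomial.X + 1) * (1 + (1 + (Polynomial.X + 1) * (1 + (7 + 8 * Polynomial.X))))) +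
    (7 + 8 * Polynomial.X), ?_⟩
  intro D P Q M st h
  obtain ⟨V, G, S⟩ := st
  set X := D + P.size + Q.size + M.size with hX
  obtain ⟨d, hd0, hdP, hdI⟩ := h.denV
  obtain ⟨e, he0, heQ, heI, heS⟩ := h.denG
  have hD : D ≤ X := by omega
  have hK1 : ∀ i j, sz (ent V i j) ≤ 7 + 8 * X := fun i j =>
    (sz_le_of_den hd0 hdP (hdI i j) (h.boundV i j)).trans (by omega)
  have hK2 : ∀ i j, sz (ent G i j) ≤ 7 + 8 * X := fun i j =>
    (sz_le_of_den he0 heQ (heI i j) (h.boundG i j)).trans (by omega)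
  have hS : sz S ≤ 7 + 8 * X := (sz_le_of_den he0 heQ heS h.boundS).trans (by omega)
  have h1 := sz_mat_le V (X + 1) X (7 + 8 * X) (by have := h.lenV; simp only at this; omega)
    (fun r hr => by have := h.rowV r hr; omega) hK1
  have h2 := sz_mat_le G (X + 1) (X + 1) (7 + 8 * X) (by have := h.lenG; simp only at this; omega)
    (fun r hr => by have := h.rowG r hr; omega) hK2
  simp only [Polynomial.eval_add, Polynomial.eval_mul, Polynomial.eval_X, Polynomial.eval_one,
    Polynomial.eval_ofNat]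
  rw [sz_pair, sz_pair]
  simp only
  omega

end Pool.HMS
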